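import Pool.Agent.Q35.ST.Bas
import Pool.Agent.H379R3.Reg

/-!
# Project VP (helper35), job LN: a point with coordinates in a regular local ring gives a point over
the residue field
-/

set_option autoImplicit false
set_option linter.unusedVariables false
set_option linter.unusedSectionVars false

namespace Pool.Agent.Q14.VP

open MvPolynomial Pool.Agent.Q35.ST IsLocalRing

section scale

variable {κ : Type} [Fintype κ] [DecidableEq κ] {n : κ → ℕ} {k A : Type} [Field k] [CommRing A]
  [Algebra k A]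

theorem aeval_scale_monomial (c : κ → A) (z : Pc n → A) (m : Pc n →₀ ℕ) (a : k) :
    aeval (fun s => c s.1 * z s) (monomial m a) = (∏ j, c j ^ bd j m) * aeval z (monomial m a) := by
  rw [aeval_monomial, aeval_monomial, Finsupp.prod_fintype _ _ (fun _ => pow_zero _),
    Finsupp.prod_fintype _ _ (fun _ => pow_zero _)]
  have : ∏ s : Pc n, (c s.1 * z s) ^ m s = (∏ j, c j ^ bd j m) * ∏ s : Pc n, z s ^ m s := by
    simp_rw [mul_pow]
    rw [Finset.prod_mul_distrib]
    congr 1
    rw [Fintype.prod_sigma]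
    refine Finset.prod_congr rfl (fun j _ => ?_)
    rw [bd]
    exact Finset.prod_pow_eq_pow_sum Finset.univ (fun i => m (⟨j, i⟩ : Pc n)) (c j)
  rw [this]; ring

theorem aeval_scale {u : κ → ℕ} {f : MvPolynomial (Pc n) k} (h : MH Set.univ u f)
    (c : κ → A) (z : Pc n → A) :
    aeval (fun s => c s.1 * z s) f = (∏ j, c j ^ u j) * aeval z f := by
  conv_lhs => rw [f.as_sum]
  conv_rhs => rw [f.as_sum]
  rw [map_sum, map_sum, Finset.mul_sum]
  refine Finset.sum_congr rfl (fun m hm => ?_)
  rw [aeval_scale_monomial]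
  congr 1
  refine Finset.prod_congr rfl (fun j _ => ?_)
  rw [h.bd_eq (mem_support_iff.1 hm) (Set.mem_univ j)]

end scale

/-- dividing by the largest power of `t` -/
theorem prim_part {A : Type} [CommRing A] [IsDomain A] [IsNoetherianRing A] {t : A}
    (htu : ¬ IsUnit t) {ι : Type} (a : ι → A) {i0 : ι} (h : a i0 ≠ 0) :
    ∃ (e : ℕ) (a' : ι → A), (∀ i, a i = t ^ e * a' i) ∧ ∃ i, ¬ t ∣ a' i := by
  classical
  obtain ⟨N, hN⟩ : FiniteMultiplicity t (a i0) := FiniteMultiplicity.of_not_isUnit htu h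
  have hex : ∃ e : ℕ, ¬ ∀ i, t ^ (e + 1) ∣ a i := ⟨N, fun h' => hN (h' i0)⟩
  obtain ⟨e, he, hmin⟩ : ∃ e : ℕ, (¬ ∀ i, t ^ (e + 1) ∣ a i) ∧ ∀ e' < e, ∀ i, t ^ (e' + 1) ∣ a i :=
    ⟨Nat.find hex, Nat.find_spec hex, fun e' he' => by
      have := Nat.find_min hex he'
      push Not at this
      exact this⟩
  have hdiv : ∀ i, t ^ e ∣ a i := by
    intro i
    rcases Nat.eq_zero_or_pos e with h0 | h0
    · rw [h0, pow_zero]; exact one_dvd _
    · have := hmin (e - 1) (by omega) i
      rwa [Nat.sub_add_cancel h0] at this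
  choose a' ha' using hdiv
  refine ⟨e, a', ha', ?_⟩
  by_contra hcon
  push Not at hcon
  apply he
  intro i
  rw [ha' i, pow_succ]
  exact mul_dvd_mul_left _ (hcon i)

/-- the general form -/
theorem ln_gen {κ : Type} [Fintype κ] [DecidableEq κ] (n : κ → ℕ) (k : Type) [Field k]
    (F : MvPolynomial (Pc n) k) (d : κ → ℕ) (hF : MH Set.univ d F) (L : Type) [Field L]
    [Algebra k L] (e : ℕ) : ∀ (A : Type) [CommRing A] [Algebra k A] [IsRegularLocalRing A],
    ringKrullDim A = (e : ℕ) → ∀ φ : A →ₐ[k] L, (∀ x ∈ maximalIdeal A, φ x = 0) →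
    ∀ a : Pc n → A, (∀ l, ∃ i, a ⟨l, i⟩ ≠ 0) → aeval a F = 0 →
    ∃ b : Pc n → L, (∀ l, ∃ i, b ⟨l, i⟩ ≠ 0) ∧ aeval b F = 0 := by
  induction e with
  | zero =>
    intro A _ _ _ hdim φ hφ a ha haF
    have h0 := Pool.Agent.H379R3.dim_zero_maximalIdeal_eq_bot hdim
    refine ⟨fun s => φ (a s), fun l => ?_, ?_⟩
    · obtain ⟨i, hi⟩ := ha l
      refine ⟨i, fun h => hi ?_⟩
      have hnu : a ⟨l, i⟩ ∈ maximalIdeal A := by
        rw [mem_maximalIdeal, mem_nonunits_iff]
        intro hu
        exact (hu.map φ).ne_zero h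
      rw [h0] at hnu
      exact hnu
    · have := comp_aeval_apply (φ := φ) a F
      show aeval (fun s => φ (a s)) F = 0
      rw [← this, haF, map_zero]
  | succ e ih =>
    intro A _ _ _ hdim φ hφ a ha haF
    have hdom := Pool.Agent.H379R3.isDomain A
    have hsq : ¬ (maximalIdeal A ≤ maximalIdeal A ^ 2) := by
      intro hle
      have hbot : maximalIdeal A = ⊥ := by
        apply Submodule.eq_bot_of_le_smul_of_le_jacobson_bot (maximalIdeal A) (maximalIdeal A)
          (maximalIdeal A).fg_of_isNoetherianRing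
        · rw [smul_eq_mul, ← pow_two]; exact hle
        · exact IsLocalRing.maximalIdeal_le_jacobson _
      have h2 : IsField A := isField_iff_maximalIdeal_eq.2 hbot
      have := ringKrullDim_eq_zero_of_isField h2
      rw [hdim] at this
      have h3 : e + 1 = 0 := by exact_mod_cast this
      omega
    obtain ⟨t, ht, ht2⟩ := Set.not_subset.1 hsq
    obtain ⟨hreg, hdimB⟩ := Pool.Agent.H379R3.regular_quotient t ht ht2 e hdim
    have htu : ¬ IsUnit t := (mem_maximalIdeal t).1 ht
    have ht0 : t ≠ 0 := by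
      rintro rfl
      exact ht2 (Ideal.zero_mem _)
    -- divide by powers of t
    have hpp : ∀ l, ∃ (el : ℕ) (a' : Fin (n l + 1) → A), (∀ i, a ⟨l, i⟩ = t ^ el * a' i) ∧
        ∃ i, ¬ t ∣ a' i := fun l => by
      obtain ⟨i, hi⟩ := ha l
      exact prim_part htu (fun i => a ⟨l, i⟩) hi
    choose el a' ha' hnd using hpp
    have hz : a = fun s => (t ^ el s.1) * (a' s.1 s.2) := by
      funext s
      exact ha' s.1 s.2
    have hF' : aeval (fun s : Pc n => a' s.1 s.2) F = 0 := by
      rw [hz] at haF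
      have h1 := aeval_scale hF (fun l => t ^ el l) (fun s : Pc n => a' s.1 s.2)
      rw [h1] at haF
      refine (mul_eq_zero.1 haF).resolve_left ?_
      exact Finset.prod_ne_zero_iff.2 fun l _ => pow_ne_zero _ (pow_ne_zero _ ht0)
    -- pass to the quotient
    have hker : ∀ x ∈ Ideal.span {t}, φ x = 0 := by
      intro x hx
      apply hφ
      have : Ideal.span {t} ≤ maximalIdeal A := by
        rw [Ideal.span_singleton_le_iff_mem]; exact ht
      exact this hx
    refine ih (A ⧸ Ideal.span {t}) hdimB (Ideal.Quotient.liftₐ (Ideal.span {t}) φ hker) ?_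
      (fun s : Pc n => Ideal.Quotient.mkₐ k (Ideal.span {t}) (a' s.1 s.2)) ?_ ?_
    · intro x hx
      obtain ⟨y, rfl⟩ := Ideal.Quotient.mk_surjective x
      have h1 : φ y = 0 := by
        apply hφ
        rw [mem_maximalIdeal, mem_nonunits_iff]
        intro hu
        exact (mem_maximalIdeal _).1 hx (hu.map _)
      exact h1
    · intro l
      obtain ⟨i, hi⟩ := hnd l
      refine ⟨i, fun h => hi ?_⟩
      have h1 : Ideal.Quotient.mk (Ideal.span {t}) (a' l i) = 0 := h
      rw [Ideal.Quotient.eq_zero_iff_mem, Ideal.mem_span_singleton] at h1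
      exact h1
    · have h1 := comp_aeval_apply (φ := Ideal.Quotient.mkₐ k (Ideal.span {t}))
        (fun s : Pc n => a' s.1 s.2) F
      rw [← h1, hF', map_zero]

end Pool.Agent.Q14.VP
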