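import Pool.Agent.Q35.VP.Stm
import Pool.Agent.Q14.VP.LNa

/-!
# Project VP (helper35), job LN
-/

set_option autoImplicit false

namespace Pool.Agent.Q14.VP

open MvPolynomial Pool.Agent.Q35.ST IsLocalRing

/-- JOB LN -/
theorem ln : Pool.Agent.Q35.VP.S_LN := by
  intro κ _ _ n k _ F d hF A _ _ _ a ha haF
  obtain ⟨e, he⟩ := Pool.Agent.H379R3.exists_dim_eq (B := A)
  refine ln_gen n k F d hF (ResidueField A) e A he (IsScalarTower.toAlgHom k A (ResidueField A))
    (fun x hx => ?_) a ha haF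
  exact (residue_eq_zero_iff x).2 hx

end Pool.Agent.Q14.VP
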