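import Pool.Agent.Q35.VP.Stm
import Pool.Agent.Q14.VP.LNa

/-!
# Project VP (helper35), job LNS: Lang-Nishimura for schemes birational to closed subvarieties of
products of projective spaces
-/

set_option autoImplicit false

namespace Pool.Agent.Q14.VP

open MvPolynomial Pool.Agent.Q35.ST Pool.Agent.Q35.HB AlgebraicGeometry CategoryTheory W560.HP
  IsLocalRing

/-- The ring form. -/
theorem lns_ring {κ : Type} [Fintype κ] [DecidableEq κ] (n : κ → ℕ) (k : Type) [Field k]
    (F : MvPolynomial (Pc n) k) (d : κ → ℕ) (hF : MH Set.univ d F) (A : Type) [CommRing A]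
    [IsRegularLocalRing A] (K0 : Type) [Field K0] [Algebra A K0] [IsFractionRing A K0]
    (ρ : k →+* A) (ε : A →+* k) (hε : ∀ a, ε (ρ a) = a) (K : Type) [Field K] [Algebra k K]
    (e : K0 ≃+* K) (he : ∀ a, e (algebraMap A K0 (ρ a)) = algebraMap k K a) (y : Pc n → K)
    (hy1 : ∀ l, ∃ b, y ⟨l, b⟩ = 1) (hy0 : aeval y F = 0) :
    ∃ x : Pc n → k, Nz Set.univ x ∧ MvPolynomial.eval x F = 0 := by
  classical
  let _ : Algebra k A := ρ.toAlgebra
  have hdom := Pool.Agent.H379R3.isDomain A
  let φ : A →ₐ[k] k := { ε with commutes' := fun a => hε a }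
  have hφ : ∀ x ∈ maximalIdeal A, φ x = 0 := by
    intro x hx
    by_contra h
    have h1 : φ (x - algebraMap k A (φ x)) = 0 := by
      rw [map_sub, AlgHom.commutes]
      exact sub_self _
    have h2 : x - algebraMap k A (φ x) ∈ maximalIdeal A := by
      rw [mem_maximalIdeal, mem_nonunits_iff]
      intro hu
      exact (hu.map φ).ne_zero h1
    have h3 : algebraMap k A (φ x) ∈ maximalIdeal A := by
      have := Ideal.sub_mem _ hx h2
      rwa [sub_sub_cancel] at this
    exact (mem_maximalIdeal _).1 h3 ((IsUnit.mk0 _ h).map (algebraMap k A))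
  let ψ : A →ₐ[k] K := { (e : K0 →+* K).comp (algebraMap A K0) with commutes' := fun a => he a }
  have hψ : Function.Injective ψ := e.injective.comp (IsFractionRing.injective A K0)
  have hden : ∀ l, ∃ b : nonZeroDivisors A, ∀ i : Fin (n l + 1),
      IsLocalization.IsInteger A ((b : A) • e.symm (y ⟨l, i⟩)) := fun l =>
    IsLocalization.exist_integer_multiples_of_finite (nonZeroDivisors A)
      (fun i : Fin (n l + 1) => e.symm (y ⟨l, i⟩))
  choose c hc using hden
  choose a' ha' using hc
  have hψa : ∀ l i, ψ (a' l i) = ψ (c l) * y ⟨l, i⟩ := by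
    intro l i
    have h1 := ha' l i
    show e (algebraMap A K0 (a' l i)) = e (algebraMap A K0 (c l)) * y ⟨l, i⟩
    rw [h1, Algebra.smul_def, map_mul, RingEquiv.apply_symm_apply]
  have hc0 : ∀ l, ψ (c l : A) ≠ 0 := by
    intro l h
    have h1 : (c l : A) = 0 := hψ (by rw [h, map_zero])
    exact nonZeroDivisors.ne_zero (c l).2 h1
  obtain ⟨m, hm⟩ := Pool.Agent.H379R3.exists_dim_eq (B := A)
  obtain ⟨b, hb1, hb2⟩ := ln_gen n k F d hF k m A hm φ hφ (fun s => a' s.1 s.2)
    (fun l => by
      obtain ⟨i, hi⟩ := hy1 l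
      refine ⟨i, fun h => hc0 l ?_⟩
      have h1 := hψa l i
      rw [hi, mul_one] at h1
      rw [← h1]
      have h2 : a' l i = 0 := h
      rw [h2, map_zero])
    (by
      apply hψ
      rw [map_zero, comp_aeval_apply]
      have h1 : (fun s : Pc n => ψ (a' s.1 s.2)) = fun s => ψ (c s.1) * y s := by
        funext s
        exact hψa s.1 s.2
      rw [h1]
      have h2 := aeval_scale hF (fun l => ψ (c l : A)) y
      rw [h2, hy0, mul_zero])
  refine ⟨b, fun l _ => hb1 l, ?_⟩
  have h1 : aeval b F = MvPolynomial.eval b F := by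
    rw [aeval_def, MvPolynomial.eval]
    rfl
  rw [← h1, hb2]

theorem lns : Pool.Agent.Q35.VP.S_LNS := by
  intro κ _ _ n k _ F d hF X _ p hX s hs hreg
  obtain ⟨K, _, _, e, y, he, hy⟩ := hX
  have hregq := hreg (closedPoint k)
  let ε : X.presheaf.stalk (s.base (closedPoint k)) →+* k :=
    (Scheme.stalkClosedPointTo (R := CommRingCat.of k) s).hom
  let ρ : k →+* X.presheaf.stalk (s.base (closedPoint k)) :=
    ((X.presheaf.germ ⊤ (s.base (closedPoint k)) trivial).hom.comp p.appTop.hom).comp
      (Scheme.ΓSpecIso (CommRingCat.of k)).inv.hom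
  refine lns_ring n k F d hF (X.presheaf.stalk (s.base (closedPoint k))) X.functionField ρ ε ?_ K e
    ?_ y hy.one hy.zero
  · intro a
    have h1 := Scheme.germ_stalkClosedPointTo (R := CommRingCat.of k) s ⊤ trivial
    have h2 : p.appTop ≫ s.appTop = 𝟙 _ := by
      rw [← Scheme.Hom.comp_appTop, hs]
      rfl
    have h4 : ((Spec (CommRingCat.of k)).presheaf.mapIso
        (eqToIso (Scheme.preimage_eq_top_of_closedPoint_mem (R := CommRingCat.of k) s
          (U := ⊤) trivial).symm).op ≪≫
        Scheme.ΓSpecIso (CommRingCat.of k)).hom = (Scheme.ΓSpecIso (CommRingCat.of k)).hom := by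
      rw [Iso.trans_hom]
      have h5 : ((Spec (CommRingCat.of k)).presheaf.mapIso
        (eqToIso (Scheme.preimage_eq_top_of_closedPoint_mem (R := CommRingCat.of k) s
          (U := ⊤) trivial).symm).op).hom = 𝟙 _ := by
        exact (Spec (CommRingCat.of k)).presheaf.map_id _
      rw [h5]
      exact Category.id_comp _
    rw [h4] at h1
    have h6 : ∀ z, ε (X.presheaf.germ ⊤ (s.base (closedPoint k)) trivial z) =
        (Scheme.ΓSpecIso (CommRingCat.of k)).hom.hom (s.appTop.hom z) := fun z =>
      congrArg (fun φ => φ.hom z) h1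
    have h7 : ∀ w, s.appTop.hom (p.appTop.hom w) = w := fun w =>
      congrArg (fun φ => φ.hom w) h2
    have h8 : ∀ w, (Scheme.ΓSpecIso (CommRingCat.of k)).hom.hom
        ((Scheme.ΓSpecIso (CommRingCat.of k)).inv.hom w) = w := fun w =>
      congrArg (fun φ => φ.hom w) (Scheme.ΓSpecIso (CommRingCat.of k)).inv_hom_id
    have h9 := h6 (p.appTop.hom ((Scheme.ΓSpecIso (CommRingCat.of k)).inv.hom a))
    rw [h7, h8] at h9
    exact h9
  · intro a
    rw [← he a]
    refine congrArg e ?_
    exact X.presheaf.germ_stalkSpecializes_apply (U := ⊤) trivial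
      ((genericPoint_spec X).specializes trivial)
      (p.appTop.hom ((Scheme.ΓSpecIso (CommRingCat.of k)).inv.hom a))

end Pool.Agent.Q14.VP
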