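import Mathlib

/-!
# Project VP (helper35), job QP: pencils of quadratic forms
-/

set_option autoImplicit false
set_option linter.unusedVariables false
set_option linter.unusedSectionVars false

namespace Pool.Agent.Q14.VP

section
variable {k V : Type} [Field k] [CharZero k] [AddCommGroup V] [Module k V]

/-- the zeros of a quadratic polynomial -/
theorem fin_quad (A B C : k) (hA : A ≠ 0) : {x : k | A * x ^ 2 + B * x + C = 0}.Finite := by
  by_cases h : ∃ x0, A * x0 ^ 2 + B * x0 + C = 0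
  · obtain ⟨x0, h0⟩ := h
    refine ((Set.finite_singleton (-B / A - x0)).insert x0).subset fun x hx => ?_
    have hx' : A * x ^ 2 + B * x + C = 0 := hx
    have h1 : (x - x0) * (A * (x + x0) + B) = 0 := by linear_combination hx' - h0
    rcases mul_eq_zero.1 h1 with h2 | h2
    · exact Set.mem_insert_iff.2 (Or.inl (sub_eq_zero.1 h2))
    · refine Set.mem_insert_iff.2 (Or.inr ?_)
      rw [Set.mem_singleton_iff]
      field_simp
      linear_combination h2
  · refine Set.finite_empty.subset fun x hx => h ⟨x, hx⟩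

/-- finitely many bad parameters -/
theorem pick (S : Set k) (hS : S.Finite) (P : Finset V) (B : V → Set k) (hB : ∀ p ∈ P, (B p).Finite) :
    ∃ a : k, a ∉ S ∧ ∀ p ∈ P, a ∉ B p := by
  have h1 : (S ∪ ⋃ p ∈ P, B p).Finite := hS.union (P.finite_toSet.biUnion fun p hp => hB p hp)
  obtain ⟨a, ha⟩ := h1.exists_notMem
  refine ⟨a, fun h => ha (Or.inl h), fun p hp h => ha (Or.inr ?_)⟩
  exact Set.mem_biUnion hp h

omit [CharZero k] in
theorem sq_id (A B κ d : k) (hd : d ≠ 0) : -d * A ^ 2 + 2 * A * B +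
    (-(κ * (2 * A)) - B ^ 2 / d + 2 * κ * B / d - κ ^ 2 / d) = -d * (A + (κ - B) / d) ^ 2 := by
  field_simp
  ring

omit [CharZero k] in
theorem fin_id (d a b : k) : d * a ^ 2 * b ^ 2 + -d * b ^ 2 * a ^ 2 = 0 := by ring

variable (bg bq : V →ₗ[k] V →ₗ[k] k)

/-- the conclusion -/
def Sol (P : Finset V) : Prop := ∃ (Y : V) (s t : k), t ≠ 0 ∧ Y ≠ 0 ∧
  bg Y Y * s ^ 2 + bq Y Y * t ^ 2 = 0 ∧ ∀ p ∈ P, ¬ ∃ c : k, Y = c • p

variable {bg bq}

/-- second case -/
theorem caseII (sg : ∀ u v, bg u v = bg v u) (sq : ∀ u v, bq u v = bq v u) {y : V} (hy : y ≠ 0)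
    (hg : bg y y = 0) {d : k} (hd : d ≠ 0) (hq : bq y y = -d) {u : V} (hu : bg y u = 1)
    (h2 : bq u u + (bq y u) ^ 2 / d = 0) (P : Finset V) : Sol bg bq P := by
  set α : k → k := fun a => (d * a ^ 2 - bg u u) / 2 with hα
  set B : V → Set k := fun p => {a | ∃ c : k, α a • y + u = c • p} with hB
  have hBfin : ∀ p ∈ P, (B p).Finite := by
    intro p _
    by_cases h : ∃ a0, a0 ∈ B p
    · obtain ⟨a0, c0, h0⟩ := h
      refine (fin_quad d 0 (-(d * a0 ^ 2)) hd).subset ?_
      rintro a ⟨c, hc⟩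
      have l0 : bg y (α a0 • y + u) = c0 * bg y p := by rw [h0, map_smul, smul_eq_mul]
      have l1 : bg y (α a • y + u) = c * bg y p := by rw [hc, map_smul, smul_eq_mul]
      rw [map_add, map_smul, hg, hu, smul_zero, zero_add] at l0 l1
      have hp : bg y p ≠ 0 := by
        intro h3
        rw [h3, mul_zero] at l0
        exact one_ne_zero l0
      have hcc : c = c0 := by
        apply mul_right_cancel₀ hp
        rw [← l0, ← l1]
      have h3 : (α a - α a0) • y = 0 := by
        rw [sub_smul]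
        have : α a • y + u = α a0 • y + u := by rw [hc, h0, hcc]
        have h4 := add_right_cancel this
        rw [h4, sub_self]
      have h4 : α a - α a0 = 0 := (smul_eq_zero.1 h3).resolve_right hy
      show d * a ^ 2 + 0 * a + -(d * a0 ^ 2) = 0
      simp only [hα] at h4
      linear_combination 2 * h4
    · refine Set.finite_empty.subset fun a ha => h ⟨a, ha⟩
  obtain ⟨a, ha, haP⟩ := pick {0} (Set.finite_singleton 0) P B hBfin
  have hY : bg y (α a • y + u) = 1 := by
    rw [map_add, map_smul, hg, hu, smul_zero, zero_add]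
  refine ⟨α a • y + u, α a - bq y u / d, a, fun h => ha (by rw [h]; rfl), ?_, ?_, ?_⟩
  · intro h
    rw [h, map_zero] at hY
    exact one_ne_zero hY.symm
  · have e1 : bg (α a • y + u) (α a • y + u) = 2 * α a + bg u u := by
      simp only [map_add, map_smul, LinearMap.add_apply, LinearMap.smul_apply, smul_eq_mul]
      rw [hg, hu, sg u y, hu]
      ring
    have e2 : bq (α a • y + u) (α a • y + u) = -d * α a ^ 2 + 2 * α a * bq y u + bq u u := by
      simp only [map_add, map_smul, LinearMap.add_apply, LinearMap.smul_apply, smul_eq_mul]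
      rw [hq, sq u y]
      ring
    have e3 : bq u u = -(bq y u) ^ 2 / d := by
      have : -(bq y u) ^ 2 / d = -((bq y u) ^ 2 / d) := by ring
      rw [this]
      linear_combination h2
    rw [e1, e2, e3]
    simp only [hα]
    field_simp
    ring
  · intro p hp hc
    exact haP p hp hc

omit [CharZero k] in
theorem phi_id (κ d r τ Gww Gew Gee Bww Bew Byw Bye : k) :
    κ * d * (r + τ) ^ 2 + ((Bww + 2 * r * Bew + r ^ 2 * (κ * (Gee - d) - Bye ^ 2 / d)) +
      (Byw + r * Bye) ^ 2 / d) - κ * (Gww + 2 * r * Gew + r ^ 2 * Gee) -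
      2 * κ * (Byw + r * Bye) / d + κ ^ 2 / d =
    r * (2 * (κ * d * τ + (Bew + Bye * Byw / d - κ * Gew - κ * Bye / d))) + (κ * d * τ ^ 2 +
      (Bww + Byw ^ 2 / d - κ * Gww - 2 * κ * Byw / d + κ ^ 2 / d)) := by
  ring

/-- first case -/
theorem caseI (sg : ∀ u v, bg u v = bg v u) (sq : ∀ u v, bq u v = bq v u) {y : V} (hy : y ≠ 0)
    (hg : bg y y = 0) {d : k} (hd : d ≠ 0) (hq : bq y y = -d) {e w : V} (he : bg y e = 0)
    (he2 : bq e e + (bq y e) ^ 2 / d ≠ 0) (hw : bg y w = 1) (P : Finset V) : Sol bg bq P := by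
  wlog hed : bg e e ≠ d with H
  · push Not at hed
    refine H (e := (2 : k) • e) sg sq hy hg hd hq ?_ ?_ hw P ?_
    · rw [map_smul, he, smul_zero]
    · simp only [map_smul, LinearMap.smul_apply, smul_eq_mul]
      intro h
      apply he2
      have : (4 : k) * (bq e e + (bq y e) ^ 2 / d) = 0 := by
        rw [← h]; ring
      exact (mul_eq_zero.1 this).resolve_left (by norm_num)
    · simp only [map_smul, LinearMap.smul_apply, smul_eq_mul]
      rw [hed]
      intro h
      apply hd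
      have : (3 : k) * d = 0 := by linear_combination h
      exact (mul_eq_zero.1 this).resolve_left (by norm_num)
  have hed' : bg e e - d ≠ 0 := sub_ne_zero.2 hed
  obtain ⟨κ, hκ⟩ : ∃ κ : k, κ = (bq e e + (bq y e) ^ 2 / d) / (bg e e - d) := ⟨_, rfl⟩
  have hκ0 : κ ≠ 0 := by rw [hκ]; exact div_ne_zero he2 hed'
  have hκe : bq e e = κ * (bg e e - d) - (bq y e) ^ 2 / d := by
    rw [hκ, div_mul_cancel₀ _ hed', add_sub_cancel_right]
  -- the constants
  obtain ⟨c1, hc1⟩ : ∃ c1 : k, c1 = bq w w + (bq y w) ^ 2 / d - κ * bg w w - 2 * κ * bq y w / d +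
    κ ^ 2 / d := ⟨_, rfl⟩
  obtain ⟨c0, hc0⟩ : ∃ c0 : k, c0 = bq e w + bq y e * bq y w / d - κ * bg e w - κ * bq y e / d :=
    ⟨_, rfl⟩
  obtain ⟨D, hD⟩ : ∃ D : k → k, ∀ τ, D τ = κ * d * τ + c0 := ⟨_, fun _ => rfl⟩
  obtain ⟨r, hr⟩ : ∃ r : k → k, ∀ τ, r τ = -(κ * d * τ ^ 2 + c1) / (2 * D τ) := ⟨_, fun _ => rfl⟩
  obtain ⟨a, ha⟩ : ∃ a : k → k, ∀ τ, a τ = r τ + τ := ⟨_, fun _ => rfl⟩
  obtain ⟨u, hu⟩ : ∃ u : k → V, ∀ τ, u τ = w + r τ • e := ⟨_, fun _ => rfl⟩
  obtain ⟨α, hα⟩ : ∃ α : k → k, ∀ τ, α τ = (d * a τ ^ 2 - bg (u τ) (u τ)) / 2 := ⟨_, fun _ => rfl⟩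
  have hr2 : ∀ τ, D τ ≠ 0 → r τ * (2 * D τ) = -(κ * d * τ ^ 2 + c1) := by
    intro τ hDτ
    rw [hr τ, div_mul_cancel₀]
    exact mul_ne_zero two_ne_zero hDτ
  have hl : ∀ τ, bg y (α τ • y + u τ) = 1 := by
    intro τ
    rw [hu τ, map_add, map_smul, hg, smul_zero, zero_add, map_add, map_smul, hw, he, smul_zero,
      add_zero]
  have hBfin : ∀ p ∈ P, ({τ | D τ ≠ 0 ∧ ∃ c : k, α τ • y + u τ = c • p} : Set k).Finite := by
    intro p _
    by_cases h : ∃ τ0, D τ0 ≠ 0 ∧ ∃ c : k, α τ0 • y + u τ0 = c • p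
    · obtain ⟨τ0, hD0, c', h0⟩ := h
      refine (fin_quad (κ * d) (2 * r τ0 * (κ * d)) (c1 + 2 * r τ0 * c0) (mul_ne_zero hκ0 hd)).subset ?_
      rintro τ ⟨hDτ, c, hc⟩
      have l0 := hl τ0
      have l1 := hl τ
      rw [h0, map_smul, smul_eq_mul] at l0
      rw [hc, map_smul, smul_eq_mul] at l1
      have hp : bg y p ≠ 0 := by
        intro h3
        rw [h3, mul_zero] at l0
        exact one_ne_zero l0.symm
      have hcc : c = c' := by
        apply mul_right_cancel₀ hp
        rw [l0, l1]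
      have h3 : (α τ - α τ0) • y + (r τ - r τ0) • e = 0 := by
        have h4 : α τ • y + u τ = α τ0 • y + u τ0 := by rw [hc, h0, hcc]
        rw [hu τ, hu τ0] at h4
        rw [sub_smul, sub_smul]
        have h5 : α τ • y + (w + r τ • e) - (α τ0 • y + (w + r τ0 • e)) = 0 := by rw [h4, sub_self]
        rw [← h5]
        abel
      have h4 : r τ = r τ0 := by
        by_contra hne
        have hne' : r τ - r τ0 ≠ 0 := sub_ne_zero.2 hne
        obtain ⟨c2, h5⟩ : ∃ c2 : k, e = c2 • y := by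
          refine ⟨-(α τ - α τ0) / (r τ - r τ0), ?_⟩
          have h6 : (r τ - r τ0) • e = -(α τ - α τ0) • y := by
            rw [neg_smul]
            exact (neg_eq_of_add_eq_zero_right h3).symm
          rw [div_eq_inv_mul, mul_smul, ← h6, smul_smul, inv_mul_cancel₀ hne', one_smul]
        apply he2
        rw [h5]
        simp only [map_smul, LinearMap.smul_apply, smul_eq_mul]
        rw [hq]
        field_simp
        ring
      have h5 := hr2 τ hDτ
      rw [h4, hD τ] at h5
      show κ * d * τ ^ 2 + 2 * r τ0 * (κ * d) * τ + (c1 + 2 * r τ0 * c0) = 0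
      linear_combination h5
    · refine Set.finite_empty.subset fun τ hτ => h ⟨τ, hτ⟩
  have hS : ({τ : k | D τ = 0} ∪ {τ : k | κ * d * τ ^ 2 + 2 * c0 * τ + -c1 = 0}).Finite := by
    refine Set.Finite.union ?_ (fin_quad _ _ _ (mul_ne_zero hκ0 hd))
    refine (Set.finite_singleton (-c0 / (κ * d))).subset fun τ hτ => ?_
    have h1 : D τ = 0 := hτ
    rw [hD τ] at h1
    rw [Set.mem_singleton_iff]
    have h2 : κ * d ≠ 0 := mul_ne_zero hκ0 hd
    rw [eq_div_iff h2]
    linear_combination h1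
  obtain ⟨τ, hτ, hτP⟩ := pick _ hS P _ hBfin
  have hDτ : D τ ≠ 0 := fun h => hτ (Or.inl h)
  have haτ : a τ ≠ 0 := by
    intro h
    apply hτ
    right
    show κ * d * τ ^ 2 + 2 * c0 * τ + -c1 = 0
    have h5 := hr2 τ hDτ
    have h6 : r τ = -τ := by
      rw [ha τ] at h
      linear_combination h
    rw [h6, hD τ] at h5
    linear_combination -h5
  refine ⟨α τ • y + u τ, α τ + (κ - bq y (u τ)) / d, a τ, haτ, ?_, ?_, ?_⟩
  · intro h
    have := hl τ
    rw [h, map_zero] at this
    exact one_ne_zero this.symm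
  · have hyu : bg y (u τ) = 1 := by
      rw [hu τ, map_add, map_smul, hw, he, smul_zero, add_zero]
    have e1 : bg (α τ • y + u τ) (α τ • y + u τ) = d * a τ ^ 2 := by
      have : bg (α τ • y + u τ) (α τ • y + u τ) = 2 * α τ + bg (u τ) (u τ) := by
        simp only [map_add, map_smul, LinearMap.add_apply, LinearMap.smul_apply, smul_eq_mul]
        rw [hg, hyu, sg (u τ) y, hyu]
        ring
      rw [this, hα τ]
      ring
    have e2 : bq (α τ • y + u τ) (α τ • y + u τ) =
        -d * α τ ^ 2 + 2 * α τ * bq y (u τ) + bq (u τ) (u τ) := by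
      simp only [map_add, map_smul, LinearMap.add_apply, LinearMap.smul_apply, smul_eq_mul]
      rw [hq, sq (u τ) y]
      ring
    -- the equation Φ = 0
    have hΦ : κ * d * a τ ^ 2 + (bq (u τ) (u τ) + (bq y (u τ)) ^ 2 / d) - κ * bg (u τ) (u τ) -
        2 * κ * bq y (u τ) / d + κ ^ 2 / d = 0 := by
      have f1 : bg (u τ) (u τ) = bg w w + 2 * r τ * bg e w + r τ ^ 2 * bg e e := by
        simp only [hu τ, map_add, map_smul, LinearMap.add_apply, LinearMap.smul_apply, smul_eq_mul]
        rw [sg w e]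
        ring
      have f2 : bq (u τ) (u τ) = bq w w + 2 * r τ * bq e w + r τ ^ 2 * bq e e := by
        simp only [hu τ, map_add, map_smul, LinearMap.add_apply, LinearMap.smul_apply, smul_eq_mul]
        rw [sq w e]
        ring
      have f3 : bq y (u τ) = bq y w + r τ * bq y e := by
        simp only [hu τ, map_add, map_smul, smul_eq_mul]
      rw [f1, f2, f3, hκe, ha τ, phi_id, ← hc0, ← hc1, ← hD τ, hr2 τ hDτ, neg_add_cancel]
    have e3 : bq (α τ • y + u τ) (α τ • y + u τ) = -d * (α τ + (κ - bq y (u τ)) / d) ^ 2 := by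
      rw [e2]
      have h7 : 2 * α τ = d * a τ ^ 2 - bg (u τ) (u τ) := by
        rw [hα τ]
        ring
      have h8 : bq (u τ) (u τ) = -(κ * (2 * α τ)) - (bq y (u τ)) ^ 2 / d +
        2 * κ * bq y (u τ) / d - κ ^ 2 / d := by
        rw [h7]
        linear_combination hΦ
      rw [h8]
      exact sq_id _ _ _ _ hd
    rw [e1, e3]
    exact fin_id _ _ _
  · intro p hp hc
    exact hτP p hp ⟨hDτ, hc⟩

/-- both cases -/
theorem lemA (sg : ∀ u v, bg u v = bg v u) (sq : ∀ u v, bq u v = bq v u) {y : V} (hy : y ≠ 0)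
    (hg : bg y y = 0) {d : k} (hd : d ≠ 0) (hq : bq y y = -d)
    (h : (∃ e, bg y e = 0 ∧ bq e e + (bq y e) ^ 2 / d ≠ 0) ∨
      ∃ u, bg y u ≠ 0 ∧ bq u u + (bq y u) ^ 2 / d = 0) {w : V} (hw : bg y w ≠ 0) (P : Finset V) :
    Sol bg bq P := by
  rcases h with ⟨e, he, he2⟩ | ⟨u, hu, hu2⟩
  · refine caseI sg sq hy hg hd hq (w := (bg y w)⁻¹ • w) he he2 ?_ P
    rw [map_smul, smul_eq_mul, inv_mul_cancel₀ hw]
  · refine caseII sg sq hy hg hd hq (u := (bg y u)⁻¹ • u) ?_ ?_ P
    · rw [map_smul, smul_eq_mul, inv_mul_cancel₀ hu]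
    · simp only [map_smul, LinearMap.smul_apply, smul_eq_mul]
      have : (bg y u)⁻¹ * ((bg y u)⁻¹ * bq u u) + ((bg y u)⁻¹ * bq y u) ^ 2 / d =
          (bg y u)⁻¹ ^ 2 * (bq u u + (bq y u) ^ 2 / d) := by ring
      rw [this, hu2, mul_zero]

theorem qp0 [FiniteDimensional k V] (h3 : 3 ≤ Module.finrank k V)
    (sg : ∀ u v, bg u v = bg v u) (sq : ∀ u v, bq u v = bq v u)
    (nd : ∀ r, (∀ u, bg r u = 0) → r = 0) {y : V} (hy : y ≠ 0) (hg : bg y y = 0) (P : Finset V)
    (hP : ∀ p ∈ P, ¬ ∃ c : k, y = c • p) : Sol bg bq P := by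
  classical
  by_cases hq0 : bq y y = 0
  · refine ⟨y, 0, 1, one_ne_zero, hy, ?_, hP⟩
    rw [hq0, hg]
    ring
  set d : k := -bq y y with hd
  have hd0 : d ≠ 0 := neg_ne_zero.2 hq0
  have hq : bq y y = -d := by rw [hd, neg_neg]
  obtain ⟨w0, hw0⟩ : ∃ w, bg y w ≠ 0 := by
    by_contra h
    push Not at h
    exact hy (nd y h)
  by_cases hcase : (∃ e, bg y e = 0 ∧ bq e e + (bq y e) ^ 2 / d ≠ 0) ∨
      ∃ u, bg y u ≠ 0 ∧ bq u u + (bq y u) ^ 2 / d = 0
  · exact lemA sg sq hy hg hd0 hq hcase hw0 P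
  push Not at hcase
  obtain ⟨hI, hII⟩ := hcase
  -- the polar form vanishes on the hyperplane
  have hb2 : ∀ e v, bg y e = 0 → bq e v + bq y e * bq y v / d = 0 := by
    intro e v he
    by_cases hv : bg y v = 0
    · have h1 := hI (e + v) (by rw [map_add, he, hv, add_zero])
      have h2 := hI e he
      have h4 := hI v hv
      simp only [map_add, LinearMap.add_apply] at h1
      rw [sq v e] at h1
      have h5 : 2 * (bq e v + bq y e * bq y v / d) = 0 := by
        linear_combination h1 - h2 - h4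
      exact (mul_eq_zero.1 h5).resolve_left two_ne_zero
    · by_contra hne
      set β := bq e v + bq y e * bq y v / d with hβ
      set r := -(bq v v + (bq y v) ^ 2 / d) / (2 * β) with hr
      have h1 := hII (v + r • e) (by
        rw [map_add, map_smul, he, smul_zero, add_zero]
        exact hv)
      apply h1
      have h2 := hI e he
      have h4 : r * (2 * β) = -(bq v v + (bq y v) ^ 2 / d) := by
        rw [hr, div_mul_cancel₀]
        exact mul_ne_zero two_ne_zero hne
      simp only [map_add, map_smul, LinearMap.add_apply, LinearMap.smul_apply, smul_eq_mul]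
      rw [sq v e]
      have h5 : bq v v + r * bq e v + r * (bq e v + r * bq e e) + (bq y v + r * bq y e) ^ 2 / d =
          (bq v v + (bq y v) ^ 2 / d) + r * (2 * β) + r ^ 2 * (bq e e + (bq y e) ^ 2 / d) := by
        rw [hβ]
        ring
      have h6 : (bq v v + r * bq e v + r * (bq e v + r * bq e e)) + (bq y v + r * bq y e) ^ 2 / d =
          0 := by
        rw [h5, h4, h2]
        ring
      linear_combination h6
  -- a vector in the radical of bq
  obtain ⟨r, hr0, hr1, hr2⟩ : ∃ r : V, r ≠ 0 ∧ bg y r = 0 ∧ bq y r = 0 := by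
    have h1 : LinearMap.ker ((bg y).prod (bq y)) ≠ ⊥ := by
      apply LinearMap.ker_ne_bot_of_finrank_lt
      rw [Module.finrank_prod, Module.finrank_self]
      omega
    obtain ⟨r, hr, hr0⟩ := Submodule.exists_mem_ne_zero_of_ne_bot h1
    rw [LinearMap.mem_ker, LinearMap.prod_apply] at hr
    exact ⟨r, hr0, congrArg Prod.fst hr, congrArg Prod.snd hr⟩
  have hrad : ∀ v, bq r v = 0 := by
    intro v
    have := hb2 r v hr1
    rw [hr2, zero_mul, zero_div, add_zero] at this
    exact this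
  -- choice of w
  obtain ⟨w, hw1, hw2, hwP⟩ : ∃ w : V, bg y w ≠ 0 ∧ bg r w ≠ 0 ∧
      ∀ p ∈ P, w ∉ Submodule.span k ({y, p} : Set V) := by
    set S : Finset (Submodule k V) := insert (LinearMap.ker (bg y)) (insert (LinearMap.ker (bg r))
      (P.image fun p => Submodule.span k ({y, p} : Set V))) with hS
    have hT : ⊤ ∉ S := by
      intro h
      rw [hS, Finset.mem_insert, Finset.mem_insert, Finset.mem_image] at h
      rcases h with h | h | ⟨p, -, h⟩
      · apply hw0
        have : w0 ∈ LinearMap.ker (bg y) := by rw [← h]; exact Submodule.mem_top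
        exact LinearMap.mem_ker.1 this
      · apply hr0
        apply nd
        intro u
        have : u ∈ LinearMap.ker (bg r) := by rw [← h]; exact Submodule.mem_top
        exact LinearMap.mem_ker.1 this
      · have h1 : Module.finrank k (Submodule.span k ({y, p} : Set V)) ≤ 2 := by
          have h2 := finrank_span_le_card (R := k) ({y, p} : Set V)
          refine h2.trans ?_
          rw [Set.toFinset_insert, Set.toFinset_singleton]
          exact Finset.card_le_two
        rw [h, finrank_top] at h1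
        omega
    have hU := Subspace.biUnion_ne_univ_of_top_notMem hT
    obtain ⟨w, hw⟩ := (Set.ne_univ_iff_exists_notMem _).1 hU
    have hw' : ∀ p ∈ S, w ∉ p := fun p hp h => hw (Set.mem_biUnion hp h)
    refine ⟨w, ?_, ?_, ?_⟩
    · intro h
      exact hw' _ (Finset.mem_insert_self _ _) (LinearMap.mem_ker.2 h)
    · intro h
      exact hw' _ (Finset.mem_insert_of_mem (Finset.mem_insert_self _ _)) (LinearMap.mem_ker.2 h)
    · intro p hp
      exact hw' _ (Finset.mem_insert_of_mem (Finset.mem_insert_of_mem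
        (Finset.mem_image_of_mem _ hp)))
  set y' : V := bg w w • y - (2 * bg y w) • w with hy'
  have hg' : bg y' y' = 0 := by
    simp only [hy', map_sub, map_smul, LinearMap.sub_apply, LinearMap.smul_apply, smul_eq_mul]
    rw [hg, sg w y]
    ring
  have hr' : bg y' r ≠ 0 := by
    simp only [hy', map_sub, map_smul, LinearMap.sub_apply, LinearMap.smul_apply, smul_eq_mul]
    rw [hr1, sg w r, mul_zero, zero_sub]
    exact neg_ne_zero.2 (mul_ne_zero (mul_ne_zero two_ne_zero hw1) hw2)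
  have hy0 : y' ≠ 0 := by
    intro h
    rw [h, map_zero, LinearMap.zero_apply] at hr'
    exact hr' rfl
  have hP' : ∀ p ∈ P, ¬ ∃ c : k, y' = c • p := by
    rintro p hp ⟨c, hc⟩
    apply hwP p hp
    have h1 : w = (2 * bg y w)⁻¹ • (bg w w • y - c • p) := by
      rw [← hc, hy', sub_sub_cancel, smul_smul, inv_mul_cancel₀ (mul_ne_zero two_ne_zero hw1),
        one_smul]
    rw [h1]
    refine Submodule.smul_mem _ _ (Submodule.sub_mem _ (Submodule.smul_mem _ _
      (Submodule.subset_span (by simp))) (Submodule.smul_mem _ _ (Submodule.subset_span (by simp))))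
  by_cases hq' : bq y' y' = 0
  · refine ⟨y', 0, 1, one_ne_zero, hy0, ?_, hP'⟩
    rw [hq', hg']
    ring
  · refine lemA sg sq hy0 hg' (d := -bq y' y') (neg_ne_zero.2 hq') (by rw [neg_neg])
      (Or.inr ⟨r, hr', ?_⟩) hr' P
    rw [hrad, sq y' r, hrad]
    simp

end

end Pool.Agent.Q14.VP
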