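import Pool.Agent.Q35.VP.Stm
import Pool.Agent.Q14.VP.QPa

/-!
# Project VP (helper35), job QP
-/

set_option autoImplicit false

namespace Pool.Agent.Q14.VP

/-- JOB QP -/
theorem qp : Pool.Agent.Q35.VP.S_QP := by
  intro k V _ _ _ _ _ h3 bg bq sg sq nd y hy hg P hP
  exact qp0 h3 sg sq nd hy hg P hP

end Pool.Agent.Q14.VP
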