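import Pool.Agent.Q35.VP.Stm

/-!
# Project VP (helper35), job UC: descent to countable subfields
-/

set_option autoImplicit false
set_option linter.unusedVariables false

namespace Pool.Agent.Q14.VP

open MvPolynomial Pool.Agent.Q35.ST Pool.Agent.Q35.HB Cardinal

theorem evm {σ A B : Type} [CommRing A] [CommRing B] (φ : A →+* B) (z : σ → A)
    (p : MvPolynomial σ A) : eval (fun s => φ (z s)) (map φ p) = φ (eval z p) := by
  rw [eval_map]
  have h := eval₂_comp_left φ (RingHom.id A) z p
  rw [RingHom.comp_id] at h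
  exact h.symm

theorem uc : Pool.Agent.Q35.VP.S_UC := by
  intro κ _ _ n k _ _ F hF hn hsm hdense hx0 g hg
  obtain ⟨x, hx, hxF⟩ := hx0
  classical
  set S : Set k := (fun m => coeff m F) '' (F.support : Set (Pc n →₀ ℕ)) ∪ Set.range x with hS
  have hSfin : S.Finite := (F.support.finite_toSet.image _).union (Set.finite_range x)
  set k₀ : IntermediateField ℚ k := IntermediateField.adjoin ℚ S with hk₀
  have hSk : ∀ a ∈ S, a ∈ k₀ := fun a ha => IntermediateField.subset_adjoin ℚ S ha
  have hcard : #k₀ ≤ ℵ₀ := by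
    have h1 := IntermediateField.cardinalMk_adjoin_le (F := ℚ) S
    refine h1.trans ?_
    have h2 : #S ≤ ℵ₀ := hSfin.countable.le_aleph0
    simp only [sup_le_iff]
    refine ⟨⟨?_, h2⟩, le_rfl⟩
    simp
  have hcoef : ∀ m, coeff m F ∈ k₀ := by
    intro m
    by_cases hm : m ∈ F.support
    · exact hSk _ (Or.inl ⟨m, hm, rfl⟩)
    · rw [notMem_support_iff.1 hm]
      exact k₀.zero_mem
  obtain ⟨F₀, hF₀⟩ : ∃ F₀ : MvPolynomial (Pc n) k₀, map (algebraMap k₀ k) F₀ = F := by
    refine ⟨∑ m ∈ F.support, monomial m (⟨coeff m F, hcoef m⟩ : k₀), ?_⟩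
    rw [map_sum]
    conv_rhs => rw [F.as_sum]
    refine Finset.sum_congr rfl fun m _ => ?_
    rw [map_monomial]
    rfl
  have hinj : Function.Injective (algebraMap k₀ k) := (algebraMap k₀ k).injective
  obtain ⟨x₀, hx₀⟩ : ∃ x₀ : Pc n → k₀, ∀ s, algebraMap k₀ k (x₀ s) = x s :=
    ⟨fun s => ⟨x s, hSk _ (Or.inr ⟨s, rfl⟩)⟩, fun _ => rfl⟩
  have hMH : MH Set.univ (fun _ => 2) F₀ := by
    intro m hm l hl
    refine hF m ?_ l hl
    rw [mem_support_iff] at hm ⊢
    rw [← hF₀, coeff_map]
    exact fun h => hm (hinj (by rw [h, map_zero]))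
  have hsm₀ : Smth (map (algebraMap k₀ (AlgebraicClosure k₀)) F₀) := by
    let j : AlgebraicClosure k₀ →ₐ[k₀] AlgebraicClosure k := IsAlgClosed.lift
    have hj : (j : AlgebraicClosure k₀ →+* AlgebraicClosure k).comp
        (algebraMap k₀ (AlgebraicClosure k₀)) = (algebraMap k (AlgebraicClosure k)).comp
        (algebraMap k₀ k) := by
      ext a
      show j (algebraMap k₀ (AlgebraicClosure k₀) a) = _
      rw [j.commutes]
      rfl
    have hmap : ∀ p : MvPolynomial (Pc n) k₀, map (j : AlgebraicClosure k₀ →+* AlgebraicClosure k)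
        (map (algebraMap k₀ (AlgebraicClosure k₀)) p) =
        map (algebraMap k (AlgebraicClosure k)) (map (algebraMap k₀ k) p) := by
      intro p
      rw [map_map, map_map, hj]
    intro z hz hzF
    have h1 : Nz Set.univ (fun s => (j : AlgebraicClosure k₀ →+* AlgebraicClosure k) (z s)) := by
      intro l hl
      obtain ⟨i, hi⟩ := hz l hl
      exact ⟨i, fun h => hi ((j : AlgebraicClosure k₀ →+* AlgebraicClosure k).injective
        (by rw [map_zero]; exact h))⟩
    have h2 := evm (j : AlgebraicClosure k₀ →+* AlgebraicClosure k) z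
      (map (algebraMap k₀ (AlgebraicClosure k₀)) F₀)
    rw [hzF, map_zero, hmap, hF₀] at h2
    obtain ⟨s, hs⟩ := hsm _ h1 h2
    refine ⟨s, fun h => hs ?_⟩
    rw [pderiv_map] at h ⊢
    have h3 := evm (j : AlgebraicClosure k₀ →+* AlgebraicClosure k) z
      (map (algebraMap k₀ (AlgebraicClosure k₀)) (pderiv s F₀))
    rw [h, map_zero, hmap, ← pderiv_map (φ := algebraMap k₀ k), hF₀] at h3
    exact h3
  -- the decomposition of g
  let b := Module.Basis.ofVectorSpace k₀ k
  let gi : Module.Basis.ofVectorSpaceIndex k₀ k → MvPolynomial (Pc n) k₀ := fun i =>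
    ∑ m ∈ g.support, monomial m (b.repr (coeff m g) i)
  let I : Finset (Module.Basis.ofVectorSpaceIndex k₀ k) :=
    g.support.biUnion fun m => (b.repr (coeff m g)).support
  have hg1 : g = ∑ i ∈ I, C (b i) * map (algebraMap k₀ k) (gi i) := by
    have h1 : ∀ i, C (b i) * map (algebraMap k₀ k) (gi i) =
        ∑ m ∈ g.support, monomial m (b.repr (coeff m g) i • b i) := by
      intro i
      show C (b i) * map (algebraMap k₀ k) (∑ m ∈ g.support, monomial m (b.repr (coeff m g) i)) = _
      rw [map_sum, Finset.mul_sum]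
      refine Finset.sum_congr rfl fun m _ => ?_
      rw [map_monomial, C_mul_monomial, Algebra.smul_def, mul_comm]
    rw [Finset.sum_congr rfl (fun i _ => h1 i), Finset.sum_comm]
    conv_lhs => rw [g.as_sum]
    refine Finset.sum_congr rfl fun m hm => ?_
    rw [← map_sum]
    congr 1
    conv_lhs => rw [← b.linearCombination_repr (coeff m g), Finsupp.linearCombination_apply]
    refine Finsupp.sum_of_support_subset _ ?_ _ (fun i _ => zero_smul _ _)
    intro i hi
    exact Finset.mem_biUnion.2 ⟨m, hm, hi⟩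
  obtain ⟨i, hiI, hi⟩ : ∃ i ∈ I, ¬ F₀ ∣ gi i := by
    by_contra hcon
    push Not at hcon
    apply hg
    rw [hg1]
    refine Finset.dvd_sum fun i hi => Dvd.dvd.mul_left ?_ _
    rw [← hF₀]
    exact map_dvd (map (algebraMap k₀ k)) (hcon i hi)
  have hnz : Nz Set.univ x₀ := by
    intro l hl
    obtain ⟨i, hi⟩ := hx l hl
    refine ⟨i, fun h => hi ?_⟩
    rw [← hx₀, h, map_zero]
  have hz0 : eval x₀ F₀ = 0 := by
    apply hinj
    have h1 := evm (algebraMap k₀ k) x₀ F₀
    rw [map_zero, ← h1, hF₀]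
    have h2 : (fun s => algebraMap k₀ k (x₀ s)) = x := funext hx₀
    rw [h2, hxF]
  obtain ⟨y₀, hy1, hy2⟩ := hdense k₀ F₀ hcard hMH hsm₀ ⟨x₀, hnz, hz0⟩ (gi i) hi
  refine ⟨fun s => algebraMap k₀ k (y₀ s), ?_, ?_⟩
  · rw [← hF₀, evm, hy1, map_zero]
  · intro h
    rw [hg1, map_sum] at h
    have h1 : ∑ i ∈ I, (eval y₀ (gi i)) • b i = 0 := by
      rw [← h]
      refine Finset.sum_congr rfl fun i _ => ?_
      rw [map_mul, eval_C, evm, Algebra.smul_def, mul_comm]
    exact hy2 (linearIndependent_iff'.1 b.linearIndependent I _ h1 i hiI)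

end Pool.Agent.Q14.VP
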